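import Mathlib

/-! Linear algebra of the intersection matrix of the components of a fibre. -/

namespace Pool.Agent.Q187.LF

open Finset

variable {J : Type} [Fintype J] [DecidableEq J]

/-- a symmetric matrix whose kernel is spanned by `m` has a partial inverse -/
theorem exists_inv (Q : J → J → ℚ) (m : J → ℚ) (hs : ∀ j k, Q j k = Q k j)
    (hm : ∀ j, 0 < m j) [Nonempty J]
    (hz : ∀ x : J → ℚ, (∀ k, ∑ j, Q j k * x j = 0) ↔ ∃ t : ℚ, ∀ j, x j = t * m j) :
    ∃ (P : J → J → ℚ) (u : J → ℚ), ∀ k l, ∑ j, Q j k * P j l = (if k = l then 1 else 0) + u k * m l := by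
  classical
  let A : (J → ℚ) →ₗ[ℚ] (J → ℚ) :=
    { toFun := fun x k => ∑ j, Q j k * x j
      map_add' := by
        intro x y; ext k; simp [mul_add, sum_add_distrib]
      map_smul' := by
        intro t x; ext k; simp [mul_left_comm, mul_sum] }
  have hA : ∀ x k, A x k = ∑ j, Q j k * x j := fun _ _ => rfl
  have key : ∀ y : J → ℚ, ∑ k, m k * y k = 0 → y ∈ LinearMap.range A := by
    intro y hy
    by_contra hn
    obtain ⟨f, hf0, hf⟩ := Submodule.exists_le_ker_of_notMem hn
    have hfe : ∀ x, f x = ∑ k, x k * f (Pi.single k 1) := by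
      intro x
      have : x = ∑ k, x k • (Pi.single k (1 : ℚ) : J → ℚ) := by
        ext l; simp [Finset.sum_apply, Pi.single_apply]
      conv_lhs => rw [this]
      rw [map_sum]
      refine sum_congr rfl fun k _ => ?_
      rw [map_smul, smul_eq_mul]
    have h1 : ∀ j, ∑ k, Q k j * f (Pi.single k 1) = 0 := by
      intro j
      have h2 : f (A (Pi.single j 1)) = 0 := by
        exact LinearMap.mem_ker.1 (hf (LinearMap.mem_range_self A (Pi.single j 1)))
      rw [hfe] at h2
      rw [← h2]
      refine sum_congr rfl fun k _ => ?_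
      rw [hA]
      simp [Pi.single_apply, hs k j]
    obtain ⟨t, ht⟩ := (hz _).1 h1
    apply hf0
    rw [hfe]
    have : ∑ k, y k * f (Pi.single k 1) = t * ∑ k, m k * y k := by
      rw [mul_sum]
      refine sum_congr rfl fun k _ => ?_
      rw [ht k]; ring
    rw [this, hy, mul_zero]
  have hpos : 0 < ∑ j, m j * m j := by
    apply sum_pos
    · intro j _; exact mul_pos (hm j) (hm j)
    · exact univ_nonempty
  set s : ℚ := ∑ j, m j * m j with hsdef
  have hsne : s ≠ 0 := ne_of_gt hpos
  have hcol : ∀ l, ∃ x : J → ℚ, A x = fun k => (if k = l then 1 else 0) + (-(m k) / s) * m l := by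
    intro l
    have : (fun k => (if k = l then (1 : ℚ) else 0) + (-(m k) / s) * m l) ∈ LinearMap.range A := by
      apply key
      have h3 : ∑ k, m k * ((if k = l then (1 : ℚ) else 0) + (-(m k) / s) * m l)
          = m l - (∑ k, m k * m k) / s * m l := by
        simp only [mul_add, sum_add_distrib]
        rw [sub_eq_add_neg]
        congr 1
        · simp
        · rw [Finset.sum_div, Finset.sum_mul, ← Finset.sum_neg_distrib]
          refine sum_congr rfl fun k _ => ?_
          ring
      rw [h3, ← hsdef, div_self hsne]; ring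
    obtain ⟨x, hx⟩ := this
    exact ⟨x, hx⟩
  choose X hX using hcol
  refine ⟨fun j l => X l j, fun k => -(m k) / s, ?_⟩
  intro k l
  have := congrFun (hX l) k
  rw [hA] at this
  exact this

end Pool.Agent.Q187.LF
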