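import Pool.Agent.Q187.LF.Stmt
import Pool.Agent.Q187.LF.Lin

/-! Stability of orthogonally liftable classes under correspondences, and the case of
models that are locally (curve) x (smooth). -/

namespace Pool.Agent.Q187.LF

open Finset

universe u

variable {T : Theory.{u}}

theorem hom_of_eq {M : T.Mdl} {a : T.Ch M} {c : T.CH (T.gen M)} (h : T.res M a = c)
    (hc : c ∈ T.hom0 _) : InHom0 T M a := by
  unfold InHom0; rw [h]; exact hc

theorem hom_of_zero {M : T.Mdl} {a : T.Ch M} (h : T.res M a = 0) : InHom0 T M a := by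
  unfold InHom0; rw [h]; exact zero_mem _

variable (hT : IsTheory T)

include hT

theorem res_zero (M : T.Mdl) : T.res M 0 = 0 := by
  have := (hT.restriction.res_lin M).map_smul 0 (0 : T.Ch M)
  simpa using this

theorem pair_zero (M : T.Mdl) {v : T.Ch M} (hv : T.res M v = 0) : T.pair M 0 v = 0 := by
  have h0 : T.res M (0 : T.Ch M) ∈ T.hom0 _ := by rw [res_zero hT]; exact zero_mem _
  have := hT.bilinear.pair_smul M 0 0 v h0 hv
  simpa using this

theorem pair_zero_right (M : T.Mdl) {a : T.Ch M} (ha : T.res M a ∈ T.hom0 _) :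
    T.pair M a 0 = 0 := by
  have := hT.bilinear.pair_smul_right M 0 a 0 ha (res_zero hT M)
  simpa using this

theorem pair_sum (M : T.Mdl) {ι : Type} (s : Finset ι) (f : ι → T.Ch M) {v : T.Ch M}
    (hf : ∀ k ∈ s, T.res M (f k) ∈ T.hom0 _) (hv : T.res M v = 0) :
    T.res M (∑ k ∈ s, f k) ∈ T.hom0 _ ∧ T.pair M (∑ k ∈ s, f k) v = ∑ k ∈ s, T.pair M (f k) v := by
  classical
  induction s using Finset.induction_on with
  | empty =>
    simp only [sum_empty]
    exact ⟨by rw [res_zero hT]; exact zero_mem _, pair_zero hT M hv⟩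
  | insert a s ha ih =>
    obtain ⟨h1, h2⟩ := ih (fun k hk => hf k (mem_insert_of_mem hk))
    have h3 := hf a (mem_insert_self a s)
    rw [sum_insert ha, sum_insert ha]
    refine ⟨?_, ?_⟩
    · rw [(hT.restriction.res_lin M).map_add]; exact add_mem h3 h1
    · rw [hT.bilinear.pair_add M _ _ _ h3 h1 hv, h2]

theorem lo_zero (M : T.Mdl) (i : ℤ) : LiftsOrthogonally T M i 0 :=
  ⟨zero_mem _, 0, zero_mem _, res_zero hT M, fun _ hv => pair_zero hT M hv⟩

theorem lo_add {M : T.Mdl} {i : ℤ} {c c' : T.CH (T.gen M)} (h : LiftsOrthogonally T M i c)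
    (h' : LiftsOrthogonally T M i c') : LiftsOrthogonally T M i (c + c') := by
  obtain ⟨hc, a, ha, hr, ho⟩ := h
  obtain ⟨hc', a', ha', hr', ho'⟩ := h'
  refine ⟨add_mem hc hc', a + a', add_mem ha ha', ?_, ?_⟩
  · rw [(hT.restriction.res_lin M).map_add, hr, hr']
  · intro v hv
    rw [hT.bilinear.pair_add M a a' v (hom_of_eq hr hc) (hom_of_eq hr' hc') hv, ho v hv, ho' v hv,
      add_zero]

theorem lo_smul {M : T.Mdl} {i : ℤ} {c : T.CH (T.gen M)} (t : ℚ) (h : LiftsOrthogonally T M i c) :
    LiftsOrthogonally T M i (t • c) := by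
  obtain ⟨hc, a, ha, hr, ho⟩ := h
  refine ⟨Submodule.smul_mem _ _ hc, t • a, Submodule.smul_mem _ _ ha, ?_, ?_⟩
  · rw [(hT.restriction.res_lin M).map_smul, hr]
  · intro v hv
    rw [hT.bilinear.pair_smul M t a v (hom_of_eq hr hc) hv, ho v hv, mul_zero]

theorem lo_sum {M : T.Mdl} {i : ℤ} {ι : Type} (s : Finset ι) (c : ι → T.CH (T.gen M))
    (h : ∀ k ∈ s, LiftsOrthogonally T M i (c k)) : LiftsOrthogonally T M i (∑ k ∈ s, c k) := by
  classical
  induction s using Finset.induction_on with
  | empty => simpa using lo_zero hT M i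
  | insert a s ha ih =>
    rw [sum_insert ha]
    exact lo_add hT (h a (mem_insert_self a s)) (ih fun k hk => h k (mem_insert_of_mem hk))

/-- pull-back to `W` and push-forward to `N` -/
theorem lo_span {M N W : T.Mdl} (p : T.Map W M) (q : T.Map W N) {i : ℤ} {c : T.CH (T.gen M)}
    (h : LiftsOrthogonally T M i c) :
    LiftsOrthogonally T N (i - T.rd q) (T.gpush q (T.gpull p c)) := by
  obtain ⟨hc, a, ha, hr, ho⟩ := h
  refine ⟨hT.graded.gpush_hom q _ (hT.graded.gpull_hom p _ hc), T.push q (T.pull p a),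
    hT.graded.codim_push q i _ (hT.graded.codim_pull p i _ ha), ?_, ?_⟩
  · rw [hT.functorial.res_push, hT.functorial.res_pull, hr]
  · intro v hv
    have h1 : T.res M a ∈ T.hom0 _ := by rw [hr]; exact hc
    have h2 : T.res W (T.pull p a) ∈ T.hom0 _ := by
      rw [hT.functorial.res_pull]; exact hT.graded.gpull_hom p _ h1
    have h3 : T.res W (T.pull q v) = 0 := by rw [hT.functorial.res_pull, hv, hT.functorial.gpull_zero]
    rw [hT.projection.proj_push q _ v h2 hv, hT.projection.proj_pull p a _ h1 h3]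
    apply ho
    show T.res M _ = 0
    rw [hT.functorial.res_push, h3, hT.functorial.gpush_zero]

/-- **Stability under correspondences.** -/
theorem lo_act {M N : T.Mdl} {e : ℤ} (Γ : T.Cor (T.gen M) (T.gen N) e) {i : ℤ}
    {c : T.CH (T.gen M)} (h : LiftsOrthogonally T M i c) :
    LiftsOrthogonally T N (i + e) (T.act Γ c) := by
  obtain ⟨n, W, p, q, r, hrd, hact⟩ := hT.alterations M N e Γ
  rw [hact]
  refine lo_sum hT _ _ fun k _ => lo_smul hT _ ?_
  have := lo_span hT (p k) (q k) h
  rw [hrd k, sub_neg_eq_add] at this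
  exact this

/-- the correction at a prime where the model is (curve) x (smooth) -/
theorem corr_at {M : T.Mdl} {Fib : Set (T.Ch M)} (D : CurveTimesSmoothAt T M Fib)
    (hF : ∀ v ∈ Fib, T.res M v = 0) {i : ℤ} {a : T.Ch M} (ha : a ∈ T.codim M i)
    (hr : T.res M a ∈ T.hom0 _) :
    ∃ w ∈ T.codim M i, w ∈ Submodule.span ℚ Fib ∧ ∀ v ∈ Fib, T.pair M w v = T.pair M a v := by
  classical
  obtain ⟨⟨J, fin, m, Q⟩, ⟨R, grp, mod, codimR, ip, tr, box⟩, ⟨ne, mpos, symm, zar⟩,
    ⟨ip_add, ip_smul, tr_lin, tr_codim, box_codim, box_mem⟩, ⟨loc, sum_zero, tr_box⟩⟩ := D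
  dsimp only at ne mpos symm zar ip_add ip_smul tr_lin tr_codim box_codim box_mem loc sum_zero tr_box
  obtain ⟨P, u, hP⟩ := exists_inv Q m symm mpos zar
  have ip_zero : ∀ r, ip 0 r = 0 := by
    intro r
    have := ip_smul 0 0 r
    simpa using this
  have ip_sum : ∀ (f : J → R) (r : R), ip (∑ j, f j) r = ∑ j, ip (f j) r := by
    intro f r
    have : ∀ s : Finset J, ip (∑ j ∈ s, f j) r = ∑ j ∈ s, ip (f j) r := by
      intro s
      induction s using Finset.induction_on with
      | empty => simpa using ip_zero r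
      | insert a s ha ih => rw [sum_insert ha, sum_insert ha, ip_add, ih]
    exact this univ
  have tr_sum : ∀ (k : J) (f : J → T.Ch M), tr k (∑ j, f j) = ∑ j, tr k (f j) := by
    intro k f
    exact map_sum (IsLinearMap.mk' (tr k) (tr_lin k)) f univ
  let b : J → R := fun j => ∑ l, P j l • tr l a
  have hb : ∀ j, b j ∈ codimR (i - 1) := by
    intro j
    exact Submodule.sum_mem _ fun l _ => Submodule.smul_mem _ _ (tr_codim l i a ha)
  let w : T.Ch M := ∑ j, box j (b j)
  have hw : w ∈ Submodule.span ℚ Fib :=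
    Submodule.sum_mem _ fun j _ => Submodule.subset_span (box_mem j _)
  have hwr : T.res M w = 0 := by
    have : T.res M w = ∑ j, T.res M (box j (b j)) :=
      map_sum (IsLinearMap.mk' (T.res M) (hT.restriction.res_lin M)) _ univ
    rw [this]
    exact sum_eq_zero fun j _ => hF _ (box_mem j _)
  refine ⟨w, Submodule.sum_mem _ fun j _ => box_codim j i _ (hb j), hw, ?_⟩
  intro v hv
  obtain ⟨r, hr'⟩ := loc v hv
  rw [hr' a hr, hr' w (hom_of_zero hwr)]
  refine sum_congr rfl fun k _ => ?_
  have h1 : ip (tr k w) (r k) = ∑ j, (Q j k : ℝ) * ip (b j) (r k) := by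
    rw [tr_sum, ip_sum]
    exact sum_congr rfl fun j _ => tr_box j k _ _
  have h2 : ∀ j, ip (b j) (r k) = ∑ l, (P j l : ℝ) * ip (tr l a) (r k) := by
    intro j
    rw [ip_sum]
    exact sum_congr rfl fun l _ => ip_smul _ _ _
  have h3 : ∑ l, (m l : ℝ) * ip (tr l a) (r k) = 0 := by
    have := sum_zero a hr (r k)
    rw [ip_sum] at this
    rw [← this]
    exact sum_congr rfl fun l _ => (ip_smul _ _ _).symm
  rw [h1]
  calc ∑ j, (Q j k : ℝ) * ip (b j) (r k)
      = ∑ j, (Q j k : ℝ) * ∑ l, (P j l : ℝ) * ip (tr l a) (r k) := by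
        refine sum_congr rfl fun j _ => ?_
        rw [h2 j]
    _ = ∑ l, ((∑ j, Q j k * P j l : ℚ) : ℝ) * ip (tr l a) (r k) := by
        simp only [mul_sum]
        rw [sum_comm]
        refine sum_congr rfl fun l _ => ?_
        push_cast
        rw [sum_mul]
        exact sum_congr rfl fun j _ => by ring
    _ = ∑ l, (((if k = l then 1 else 0) + u k * m l : ℚ) : ℝ) * ip (tr l a) (r k) := by
        refine sum_congr rfl fun l _ => ?_
        rw [hP k l]
    _ = ip (tr k a) (r k) + u k * ∑ l, (m l : ℝ) * ip (tr l a) (r k) := by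
        have hl : ∀ l, (((if k = l then 1 else 0) + u k * m l : ℚ) : ℝ) * ip (tr l a) (r k)
            = (if k = l then ip (tr l a) (r k) else 0) + u k * ((m l : ℝ) * ip (tr l a) (r k)) := by
          intro l
          by_cases hkl : k = l
          · simp only [hkl, if_true]; push_cast; ring
          · simp only [hkl, if_false]; push_cast; ring
        simp only [hl, sum_add_distrib, mul_sum]
        congr 1
        exact Finset.sum_ite_eq univ k _ |>.trans (if_pos (mem_univ k))
    _ = ip (tr k a) (r k) := by rw [h3]; ring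

/-- **Q1 for models that are locally smooth or (curve) x (smooth).** -/
theorem lo_of_nice {M : T.Mdl} (hM : IsNice T M) {i : ℤ} {c : T.CH (T.gen M)}
    (hc : c ∈ T.codimG (T.gen M) i) (h0 : c ∈ T.hom0 _) : LiftsOrthogonally T M i c := by
  classical
  obtain ⟨P, Fib, bad, hspan, hres, hdis, hsm, hbad⟩ := hM
  obtain ⟨a, ha, hr⟩ := hT.restriction.closure M i c hc
  have hra : T.res M a ∈ T.hom0 _ := by rw [hr]; exact h0
  have hex : ∀ p : P, ∃ w ∈ T.codim M i, w ∈ Submodule.span ℚ (Fib p) ∧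
      (p ∈ bad → ∀ v ∈ Fib p, T.pair M w v = T.pair M a v) := by
    intro p
    by_cases hp : p ∈ bad
    · obtain ⟨w, h1, h2, h3⟩ := corr_at hT (hbad p hp) (hres p) ha hra
      exact ⟨w, h1, h2, fun _ => h3⟩
    · exact ⟨0, zero_mem _, zero_mem _, fun h => absurd h hp⟩
  choose w hw1 hw2 hw3 using hex
  have hspan0 : ∀ p, ∀ x ∈ Submodule.span ℚ (Fib p), T.res M x = 0 := by
    intro p x hx
    have : Submodule.span ℚ (Fib p) ≤ LinearMap.ker (IsLinearMap.mk' (T.res M) (hT.restriction.res_lin M)) :=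
      Submodule.span_le.2 fun v hv => hres p v hv
    exact this hx
  have hcross : ∀ p p', p ≠ p' → ∀ x ∈ Submodule.span ℚ (Fib p), ∀ v ∈ Fib p', T.pair M x v = 0 := by
    intro p p' hpp x hx v hv
    have hv0 := hres p' v hv
    induction hx using Submodule.span_induction with
    | mem x h => exact hdis p p' hpp x h v hv
    | zero => exact pair_zero hT M hv0
    | add x y hx hy ihx ihy =>
      rw [hT.bilinear.pair_add M x y v (hom_of_zero (hspan0 p x hx))
        (hom_of_zero (hspan0 p y hy)) hv0, ihx, ihy, add_zero]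
    | smul t x hx ihx =>
      rw [hT.bilinear.pair_smul M t x v (hom_of_zero (hspan0 p x hx)) hv0, ihx, mul_zero]
  let z : T.Ch M := ∑ p ∈ bad, (-1 : ℚ) • w p
  have hz0 : ∀ p, T.res M ((-1 : ℚ) • w p) = 0 := fun p =>
    hspan0 p _ (Submodule.smul_mem _ _ (hw2 p))
  have hzh : ∀ p ∈ bad, T.res M ((-1 : ℚ) • w p) ∈ T.hom0 _ := by
    intro p _; rw [hz0 p]; exact zero_mem _
  have hzr : T.res M z = 0 := by
    have : T.res M z = ∑ p ∈ bad, T.res M ((-1 : ℚ) • w p) :=
      map_sum (IsLinearMap.mk' (T.res M) (hT.restriction.res_lin M)) _ bad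
    rw [this]
    exact sum_eq_zero fun p _ => hz0 p
  refine ⟨h0, a + z, add_mem ha (Submodule.sum_mem _ fun p _ => Submodule.smul_mem _ _ (hw1 p)),
    ?_, ?_⟩
  · rw [(hT.restriction.res_lin M).map_add, hr, hzr, add_zero]
  have hzhom : T.res M z ∈ T.hom0 _ := by rw [hzr]; exact zero_mem _
  have haz : T.res M (a + z) ∈ T.hom0 _ := by
    rw [(hT.restriction.res_lin M).map_add]; exact add_mem hra hzhom
  have hfib : ∀ p0, ∀ v ∈ Fib p0, T.pair M (a + z) v = 0 := by
    intro p0 v hv
    by_cases hp0 : p0 ∈ bad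
    · have hv0 := hres p0 v hv
      rw [hT.bilinear.pair_add M a z v hra hzhom hv0, (pair_sum hT M bad _ hzh hv0).2]
      have h1 : ∀ p, T.pair M ((-1 : ℚ) • w p) v = - T.pair M (w p) v := by
        intro p
        rw [hT.bilinear.pair_smul M _ _ v (hom_of_zero (hspan0 p _ (hw2 p))) hv0]
        push_cast; ring
      simp only [h1]
      rw [Finset.sum_eq_single p0]
      · rw [hw3 p0 hp0 v hv]; ring
      · intro p _ hne
        rw [hcross p p0 hne _ (hw2 p) v hv, neg_zero]
      · intro h; exact absurd hp0 h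
    · exact hsm p0 hp0 (a + z) haz v hv
  intro v hv
  have hv' := hspan v hv
  have key : ∀ x ∈ Submodule.span ℚ (⋃ p, Fib p), T.res M x = 0 ∧ T.pair M (a + z) x = 0 := by
    intro x hx
    induction hx using Submodule.span_induction with
    | mem x h =>
      obtain ⟨p, hp⟩ := Set.mem_iUnion.1 h
      exact ⟨hres p x hp, hfib p x hp⟩
    | zero => exact ⟨res_zero hT M, pair_zero_right hT M haz⟩
    | add x y _ _ ihx ihy =>
      refine ⟨by rw [(hT.restriction.res_lin M).map_add, ihx.1, ihy.1, add_zero], ?_⟩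
      rw [hT.bilinear.pair_add_right M _ x y haz ihx.1 ihy.1, ihx.2, ihy.2, add_zero]
    | smul t x _ ihx =>
      refine ⟨by rw [(hT.restriction.res_lin M).map_smul, ihx.1, smul_zero], ?_⟩
      rw [hT.bilinear.pair_smul_right M t _ x haz ihx.1, ihx.2, mul_zero]
  exact (key v hv').2

/-- classes obtained by correspondences from nice models lift -/
theorem lo_of_span {N : T.Mdl} {i : ℤ} {c : T.CH (T.gen N)} (hc : c ∈ fromNice T (T.gen N) i) :
    LiftsOrthogonally T N i c := by
  unfold fromNice at hc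
  induction hc using Submodule.span_induction with
  | mem x h =>
    obtain ⟨M, e, Γ, j, c', hM, hj, h1, h2, rfl⟩ := h
    rw [← hj]
    exact lo_act hT Γ (lo_of_nice hT hM h1 h2)
  | zero => exact lo_zero hT N i
  | add x y _ _ ihx ihy => exact lo_add hT ihx ihy
  | smul t x _ ihx => exact lo_smul hT t ihx

end Pool.Agent.Q187.LF
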