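import Mathlib

/-!
Lifting cohomologically trivial cycles orthogonally to fibral cycles: definitions.

All Chow groups have rational coefficients; the groups of all codimensions are
put together, `codim M i` is the subspace of classes of codimension `i`.
-/

namespace Pool.Agent.Q187.LF

universe u

/-- Regular proper flat models over rings of integers of number fields, smooth proper
varieties over number fields, and their Chow groups. -/
structure Theory where
  /-- the models -/
  Mdl : Type u
  /-- smooth proper varieties over number fields -/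
  Var : Type u
  /-- the generic fibre of a model -/
  gen : Mdl → Var
  /-- the Chow group of a model -/
  Ch : Mdl → Type u
  /-- the Chow group of a variety -/
  CH : Var → Type u
  chG : ∀ M, AddCommGroup (Ch M)
  chM : ∀ M, Module ℚ (Ch M)
  CHG : ∀ X, AddCommGroup (CH X)
  CHM : ∀ X, Module ℚ (CH X)
  /-- classes of codimension `i` on a model -/
  codim : ∀ M, ℤ → Submodule ℚ (Ch M)
  /-- classes of codimension `i` on a variety -/
  codimG : ∀ X, ℤ → Submodule ℚ (CH X)
  /-- the cohomologically trivial classes on a variety -/
  hom0 : ∀ X, Submodule ℚ (CH X)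
  /-- restriction to the generic fibre -/
  res : ∀ M, Ch M → CH (gen M)
  /-- the arithmetic intersection number `(a,v)`, used for `a` with cohomologically
  trivial restriction and `v` fibral -/
  pair : ∀ M, Ch M → Ch M → ℝ
  /-- morphisms of models -/
  Map : Mdl → Mdl → Type u
  /-- the difference of the dimensions of source and target -/
  rd : ∀ {M N : Mdl}, Map M N → ℤ
  /-- pull-back and push-forward of classes on models -/
  pull : ∀ {M N : Mdl}, Map M N → Ch N → Ch M
  push : ∀ {M N : Mdl}, Map M N → Ch M → Ch N
  /-- pull-back and push-forward on the generic fibres -/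
  gpull : ∀ {M N : Mdl}, Map M N → CH (gen N) → CH (gen M)
  gpush : ∀ {M N : Mdl}, Map M N → CH (gen M) → CH (gen N)
  /-- correspondences of degree `e` between varieties, and their action -/
  Cor : Var → Var → ℤ → Type u
  act : ∀ {X Y : Var} {e : ℤ}, Cor X Y e → CH X → CH Y

attribute [instance] Theory.chG Theory.chM Theory.CHG Theory.CHM

/-- `a` is a class on `M` with cohomologically trivial restriction to the generic fibre. -/
def InHom0 (T : Theory.{u}) (M : T.Mdl) (a : T.Ch M) : Prop := T.res M a ∈ T.hom0 (T.gen M)

/-- `v` is a fibral class. -/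
def Fibral (T : Theory.{u}) (M : T.Mdl) (v : T.Ch M) : Prop := T.res M v = 0

/-- Restriction to the generic fibre is linear and surjective in each codimension. -/
structure Restriction (T : Theory.{u}) : Prop where
  res_lin : ∀ M, IsLinearMap ℚ (T.res M)
  closure : ∀ M i, ∀ c ∈ T.codimG (T.gen M) i, ∃ a ∈ T.codim M i, T.res M a = c

/-- The pairing is bilinear. -/
structure Bilinear (T : Theory.{u}) : Prop where
  pair_add : ∀ M a a' v, InHom0 T M a → InHom0 T M a' → Fibral T M v →
    T.pair M (a + a') v = T.pair M a v + T.pair M a' v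
  pair_smul : ∀ M (r : ℚ) a v, InHom0 T M a → Fibral T M v →
    T.pair M (r • a) v = r * T.pair M a v
  pair_add_right : ∀ M a v v', InHom0 T M a → Fibral T M v → Fibral T M v' →
    T.pair M a (v + v') = T.pair M a v + T.pair M a v'
  pair_smul_right : ∀ M (r : ℚ) a v, InHom0 T M a → Fibral T M v →
    T.pair M a (r • v) = r * T.pair M a v

/-- Pull-back and push-forward commute with restriction to the generic fibre. -/
structure Functorial (T : Theory.{u}) : Prop where
  res_pull : ∀ {M N} (f : T.Map M N) a, T.res M (T.pull f a) = T.gpull f (T.res N a)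
  res_push : ∀ {M N} (f : T.Map M N) a, T.res N (T.push f a) = T.gpush f (T.res M a)
  gpull_zero : ∀ {M N} (f : T.Map M N), T.gpull f 0 = 0
  gpush_zero : ∀ {M N} (f : T.Map M N), T.gpush f 0 = 0

/-- They preserve cohomological triviality and shift the codimension as usual. -/
structure Graded (T : Theory.{u}) : Prop where
  gpull_hom : ∀ {M N} (f : T.Map M N), ∀ c ∈ T.hom0 _, T.gpull f c ∈ T.hom0 _
  gpush_hom : ∀ {M N} (f : T.Map M N), ∀ c ∈ T.hom0 _, T.gpush f c ∈ T.hom0 _
  codim_pull : ∀ {M N} (f : T.Map M N) i, ∀ a ∈ T.codim N i, T.pull f a ∈ T.codim M i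
  codim_push : ∀ {M N} (f : T.Map M N) i, ∀ a ∈ T.codim M i, T.push f a ∈ T.codim N (i - T.rd f)

/-- The projection formula, for both orders. -/
structure Projection (T : Theory.{u}) : Prop where
  proj_push : ∀ {M N} (f : T.Map M N) a v, InHom0 T M a → Fibral T N v →
    T.pair N (T.push f a) v = T.pair M a (T.pull f v)
  proj_pull : ∀ {M N} (f : T.Map M N) a v, InHom0 T N a → Fibral T M v →
    T.pair M (T.pull f a) v = T.pair N a (T.push f v)

/-- de Jong: for models `M`, `N` every correspondence between the generic fibres is a
rational combination of `q_* p^*` for morphisms `p : W → M`, `q : W → N` of models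
(alterations of the closures of its components in the product of `M` and `N`). -/
def Alterations (T : Theory.{u}) : Prop :=
  ∀ (M N : T.Mdl) (e : ℤ) (Γ : T.Cor (T.gen M) (T.gen N) e),
    ∃ (n : ℕ) (W : Fin n → T.Mdl) (p : ∀ k, T.Map (W k) M) (q : ∀ k, T.Map (W k) N)
      (r : Fin n → ℚ), (∀ k, T.rd (q k) = -e) ∧
      ∀ c, T.act Γ c = ∑ k, r k • T.gpush (q k) (T.gpull (p k) c)

/-- The known properties of such a theory. -/
structure IsTheory (T : Theory.{u}) : Prop where
  restriction : Restriction T
  bilinear : Bilinear T
  functorial : Functorial T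
  graded : Graded T
  projection : Projection T
  alterations : Alterations T

variable (T : Theory.{u})

/-- `c` is cohomologically trivial and the restriction of a class of codimension `i`
orthogonal to all fibral classes. -/
def LiftsOrthogonally (M : T.Mdl) (i : ℤ) (c : T.CH (T.gen M)) : Prop :=
  c ∈ T.hom0 (T.gen M) ∧
    ∃ a ∈ T.codim M i, T.res M a = c ∧ ∀ v, Fibral T M v → T.pair M a v = 0

/-- Smooth at a prime; `Fib` is the set of classes of cycles in the fibre at the prime. -/
def SmoothAt (M : T.Mdl) (Fib : Set (T.Ch M)) : Prop :=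
  ∀ a, InHom0 T M a → ∀ v ∈ Fib, T.pair M a v = 0

/-- The fibre of a regular model of a curve at a prime: the components, their
multiplicities and intersection numbers. -/
structure CurveFibre where
  J : Type
  fin : Fintype J
  mult : J → ℚ
  Q : J → J → ℚ

attribute [instance] CurveFibre.fin

/-- The intersection matrix is symmetric, its kernel is spanned by the multiplicities
(Zariski's lemma). -/
structure IsCurveFibre (C : CurveFibre) : Prop where
  nonempty : Nonempty C.J
  mult_pos : ∀ j, 0 < C.mult j
  symm : ∀ j k, C.Q j k = C.Q k j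
  zariski : ∀ x : C.J → ℚ, (∀ k, ∑ j, C.Q j k * x j = 0) ↔ ∃ t : ℚ, ∀ j, x j = t * C.mult j

/-- The Chow group `R` of the fibre of a smooth model, with its intersection numbers, and
for each component of the curve: restriction to the component x smooth factor followed by
push-forward to the smooth factor, and the class of component x `b`. -/
structure ProductFibre (M : T.Mdl) (J : Type) where
  R : Type u
  grp : AddCommGroup R
  mod : Module ℚ R
  codimR : ℤ → Submodule ℚ R
  ip : R → R → ℝ
  tr : J → T.Ch M → R
  box : J → R → T.Ch M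

attribute [instance] ProductFibre.grp ProductFibre.mod

variable {T}

/-- Linearity and codimensions. -/
structure IsLinearProduct {M : T.Mdl} {J : Type} (D : ProductFibre T M J) (Fib : Set (T.Ch M)) :
    Prop where
  ip_add : ∀ a b r, D.ip (a + b) r = D.ip a r + D.ip b r
  ip_smul : ∀ (t : ℚ) a r, D.ip (t • a) r = t * D.ip a r
  tr_lin : ∀ j, IsLinearMap ℚ (D.tr j)
  tr_codim : ∀ j i, ∀ a ∈ T.codim M i, D.tr j a ∈ D.codimR (i - 1)
  box_codim : ∀ j i, ∀ b ∈ D.codimR (i - 1), D.box j b ∈ T.codim M i
  box_mem : ∀ j b, D.box j b ∈ Fib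

/-- `loc`: if `a` is cohomologically trivial on the generic fibre, its restriction to each
component x smooth factor is numerically equivalent to point x `tr j a`;
`sum_zero`: its specialization is numerically trivial;
`tr_box`: intersections of the components. -/
structure IsSpecialization (C : CurveFibre) {M : T.Mdl} (D : ProductFibre T M C.J)
    (Fib : Set (T.Ch M)) : Prop where
  loc : ∀ v ∈ Fib, ∃ r : C.J → D.R, ∀ a, InHom0 T M a →
    T.pair M a v = ∑ j, D.ip (D.tr j a) (r j)
  sum_zero : ∀ a, InHom0 T M a → ∀ r, D.ip (∑ j, C.mult j • D.tr j a) r = 0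
  tr_box : ∀ j k b r, D.ip (D.tr k (D.box j b)) r = C.Q j k * D.ip b r

variable (T)

/-- At a prime the model is the product of a regular model of a curve (with geometrically
irreducible components) and of a smooth model. -/
def CurveTimesSmoothAt (M : T.Mdl) (Fib : Set (T.Ch M)) : Prop :=
  ∃ (C : CurveFibre) (D : ProductFibre T M C.J), IsCurveFibre C ∧ IsLinearProduct D Fib ∧
    IsSpecialization C D Fib

/-- A model which at each prime is smooth or (regular curve) x (smooth). -/
def IsNice (M : T.Mdl) : Prop :=
  ∃ (P : Type) (Fib : P → Set (T.Ch M)) (bad : Finset P),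
    (∀ v, Fibral T M v → v ∈ Submodule.span ℚ (⋃ p, Fib p)) ∧
    (∀ p, ∀ v ∈ Fib p, Fibral T M v) ∧
    (∀ p p', p ≠ p' → ∀ v ∈ Fib p, ∀ w ∈ Fib p', T.pair M v w = 0) ∧
    (∀ p, p ∉ bad → SmoothAt T M (Fib p)) ∧
    (∀ p ∈ bad, CurveTimesSmoothAt T M (Fib p))

/-- The classes of codimension `i` on `X` obtained by correspondences from cohomologically
trivial classes on varieties that have such a model. -/
def fromNice (X : T.Var) (i : ℤ) : Submodule ℚ (T.CH X) :=
  Submodule.span ℚ {x : T.CH X | ∃ (M : T.Mdl) (e : ℤ) (Γ : T.Cor (T.gen M) X e) (j : ℤ)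
    (c' : T.CH (T.gen M)), IsNice T M ∧ j + e = i ∧ c' ∈ T.codimG (T.gen M) j ∧
      c' ∈ T.hom0 _ ∧ x = T.act Γ c'}

end Pool.Agent.Q187.LF
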